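import Pool.Agent.TH317.CC.Geo

/-!
# Fine cellulations from cell systems (assembly)
-/

set_option autoImplicit false

universe u

namespace Pool.Agent.TH317.CC

theorem fineCell_of_tiling
    (hcf : ∀ {E : Type} [NormedAddCommGroup E] [NormedSpace ℝ E] {M : Type u}
      [MetricSpace M] (_ : LocLip E M) (K : Set M) (_ : IsCompact K) (r : ℝ) (_ : 0 < r),
      ∃ a > 0, ∃ b > 0, a ≤ r ∧ b ≤ a / 2 ∧ ∃ ρ₀ > 0,
      ∀ (D Λ J : Type u) [LinearOrder Λ] [Inhabited D] (G : Rib D M Λ) (Fc : Set (List D))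
        (cell : J → Set M) (inC : J → D → Prop) (U : Set M) (ρ : ℝ),
        CellSys G Fc cell inC U ρ → ρ ≤ ρ₀ → (∀ x ∈ K, Metric.ball x r ⊆ U) →
        (∀ x ∈ K, ∀ d d', dist x (G.tl d) < b → dist x (G.tl d') < b →
          ∃ w, Walk G (G.tl d) (G.tl d') w ∧
            ∀ e ∈ w, dist x (G.tl e) < a / 2 ∧ dist x (G.hd e) < a / 2) ∧
        (∀ x ∈ K, ∀ v z, Walk G v v z → dist x v < a →
          (∀ e ∈ z, dist x (G.tl e) < a ∧ dist x (G.hd e) < a) →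
          Relation.ReflTransGen (fun z z' => (Del G Fc z z' ∨ Del G Fc z' z) ∧ Walk G v v z' ∧
            ∀ e ∈ z', dist x (G.tl e) < r ∧ dist x (G.hd e) < r) z []))
    {M : Type u} [MetricSpace M]
    (htc : ∀ K : Set M, IsCompact K → K.Nonempty →
      ∃ (U K' : Set M), IsOpen U ∧ K ⊆ U ∧ IsCompact K' ∧ ∀ ρ > 0,
      ∃ (D Λ J : Type u) (_ : LinearOrder Λ) (_ : Inhabited D) (G : Rib D M Λ)
        (Fc : Set (List D)) (cell : J → Set M) (inC : J → D → Prop),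
        (∀ f ∈ Fc, IsFace G f) ∧ (∀ f ∈ Fc, ∃ j, ∀ c ∈ f, inC j c) ∧ (∀ d, G.tl d ∈ K') ∧
        CellSys G Fc cell inC U ρ)
    {E : Type} [NormedAddCommGroup E] [NormedSpace ℝ E] (hM : LocLip E M) : FineCell M := by
  intro K hK hKne
  obtain ⟨U, K', hU, hKU, hK', hsys⟩ := htc K hK hKne
  refine ⟨K', hK', ?_⟩
  intro r hr
  obtain ⟨δ, hδ, hδU⟩ := hK.exists_thickening_subset_open hU hKU
  have hr' : 0 < min r δ := lt_min hr hδ
  obtain ⟨a, ha, b, hb, har, hba, ρ₀, hρ₀, hmain⟩ := hcf hM K hK (min r δ) hr'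
  refine ⟨a, ha, b, hb, har.trans (min_le_left _ _), hba, ?_⟩
  intro ρ hρ
  obtain ⟨D, Λ, J, iΛ, iD, G, Fc, cell, inC, hface, hfcell, htlK', hC⟩ :=
    hsys (min ρ ρ₀) (lt_min hρ hρ₀)
  have hball : ∀ x ∈ K, Metric.ball x (min r δ) ⊆ U := fun x hx =>
    (Metric.ball_subset_ball (min_le_right _ _)).trans
      ((Metric.ball_subset_thickening hx δ).trans hδU)
  obtain ⟨hconn, hcontr⟩ := hmain D Λ J G Fc cell inC U (min ρ ρ₀) hC (min_le_right _ _) hball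
  refine ⟨D, Λ, iΛ, iD, G, Fc, ?_⟩
  have hρle : min ρ ρ₀ ≤ ρ := min_le_left _ _
  refine ⟨hface, htlK', ?_, ?_, ?_, hconn, ?_⟩
  · intro d
    obtain ⟨j, hj, -⟩ := hC.path d
    exact (hC.diam j _ (hC.tl_mem j d hj) _ (hC.tl_mem j _ (hC.inv_mem j d hj))).trans hρle
  · intro f hf c hc c' hc'
    obtain ⟨j, hj⟩ := hfcell f hf
    exact (hC.diam j _ (hC.tl_mem j c (hj c hc)) _ (hC.tl_mem j c' (hj c' hc'))).trans hρle
  · intro x hx
    obtain ⟨j, hj⟩ := hC.cover x (hKU hx)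
    obtain ⟨d, O, hO, hd⟩ := hC.star x (hKU hx)
    exact ⟨d, (hC.diam j x hj _ (hd j ⟨x, hj, mem_of_mem_nhds hO⟩)).trans hρle⟩
  · intro x hx v z hz hv he
    refine Relation.ReflTransGen.mono ?_ _ _ (hcontr x hx v z hz hv he)
    rintro z₁ z₂ ⟨h1, h2, h3⟩
    exact ⟨h1, h2, fun e he' => ⟨(h3 e he').1.trans_le (min_le_left _ _),
      (h3 e he').2.trans_le (min_le_left _ _)⟩⟩

end Pool.Agent.TH317.CC
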