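import Pool.Agent.TH317.CC.Gen
import Pool.Agent.TH113.CC.LevelB

/-!
# The polygon theorem, general version (assembly), job CC-B1g of helper317

Adapted from the proof of levelB by helper113.
-/

set_option autoImplicit false
set_option linter.unusedVariables false

universe u

namespace Pool.Agent.TH317.CC

open H113B1

theorem levelB_gen
    (hlift : ∀ {M : Type u} [MetricSpace M] {D Λ : Type u} [LinearOrder Λ] [Inhabited D]
      (G : Rib D M Λ) (K K' : Set M) (r a b ρ : ℝ)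
      (_ : GCell G K K' r a b ρ) (_ : 0 < a) (_ : 0 < b) (_ : a ≤ r) (_ : b ≤ a / 2)
      (_ : 0 < ρ) (_ : ρ < b / 2) (Fc : Set (List D))
      (_ : ∀ x ∈ K, ∀ (y : M) (ζ : List D), Walk G y y ζ → (∀ e ∈ ζ, dist x (G.tl e) < a) →
        ζ ∈ Fc)
      (n N : ℕ) (L0 L1 : ℝ)
      (_ : L0 + 2 * n * ρ ≤ L1 - N * (4 * (2 * r))),
      ∃ (V : M → M) (W : M → M → List D), (∀ x ∈ K, V x ∈ K' ∧ dist x (V x) ≤ ρ) ∧
      (∀ x ∈ K, ∀ y ∈ K, dist x y ≤ b / 2 → Walk G (V x) (V y) (W x y) ∧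
        ∀ e ∈ W x y, dist x (G.tl e) < a / 2 ∧ dist x (G.hd e) < a / 2) ∧
      ∀ P P', PStepN n (b / 2) L0 K P P' →
        Relation.ReflTransGen (Step G Fc (Rl G (2 * r) L1) N) (cword W P) (cword W P'))
    (hdesc : ∀ {M : Type u} [MetricSpace M] {D Λ : Type u} [LinearOrder Λ] [Inhabited D]
      (G : Rib D M Λ) (Fc : Set (List D)) (K' : Set M) (r ℓ : ℝ) (_ : 0 < r)
      (_ : ∀ d, dist (G.tl d) (G.hd d) ≤ r) (_ : ∀ f ∈ Fc, CW G f)
      (_ : ∀ f ∈ Fc, ∀ c ∈ f, ∀ c' ∈ f, dist (G.tl c) (G.tl c') ≤ r)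
      (_ : ∀ d, G.tl d ∈ K') (w z : List D) (x : M) (_ : x ∈ K') (P : List M) (_ : P ≠ [])
      (_ : BW G r x x w P) (_ : chl (P ++ [x]) < ℓ)
      (_ : Relation.ReflTransGen (Step G Fc (Rl G r ℓ) 0) w z)
      (_ : ∀ c ∈ z, ∀ c' ∈ z, dist (G.tl c) (G.tl c') ≤ r),
      PContr r (ℓ + 20 * r) K' P)
    (p : ℕ) [Fact p.Prime]
    (hdisc : ∀ {M : Type u} [MetricSpace M] [Nonempty M] {D Λ : Type u} [LinearOrder Λ]
      [Inhabited D] (G : Rib D M Λ) (r ℓ : ℝ) (_ : 0 ≤ r)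
      (_ : ∀ d, dist (G.tl d) (G.hd d) ≤ r) (𝒮 : Set (Set M)) (_ : ∀ S ∈ 𝒮, IntZero G S)
      (_ : ∀ S ∈ 𝒮, ∀ x ∈ S, ∀ y ∈ S, dist x y ≤ r)
      (Sm : List D → Prop) (_ : ∀ w w', Sm w → (∀ a ∈ w', a ∈ w) → Sm w')
      (_ : ∀ a w, (∀ b ∈ w, b = a ∨ b = G.inv a) → Sm w)
      (_ : ∀ S ∈ 𝒮, ∀ w, (∀ b ∈ w, G.tl b ∈ S) → Sm w)
      (v z : List D) (_ : v ≠ [])
      (_ : Rl G r ℓ 0 v) (_ : Sm z)
      (_ : Relation.ReflTransGen (Step G
        {ζ | ∃ S ∈ 𝒮, (∀ e ∈ ζ, G.tl e ∈ S) ∧ ∃ y, Walk G y y ζ} (Rl G r ℓ) (8 * p + 8))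
        (List.replicate p v).flatten z),
      ∃ z', Sm z' ∧ Relation.ReflTransGen (Step G
        {ζ | ∃ S ∈ 𝒮, (∀ e ∈ ζ, G.tl e ∈ S) ∧ ∃ y, Walk G y y ζ} (Rl G r ℓ) 0) v z')
    {M : Type u} [MetricSpace M] (hM : FineGraph M)
    (K : Set M) (hK : IsCompact K) (hKn : K.Nonempty) (L0 L1 : ℝ) (h01 : L0 < L1) :
    ∃ K', IsCompact K' ∧ ∀ s > 0, ∃ b > 0, ∀ v : List M,
      PContr b L0 K (List.replicate p v).flatten → PContr s L1 K' v := by
  have hp : 2 ≤ p := (Fact.out : p.Prime).two_le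
  obtain ⟨K0, hK0, hcell⟩ := hM K hK hKn
  refine ⟨K0 ∪ K, hK0.union hK, ?_⟩
  intro s hs
  obtain ⟨ε, hε⟩ : ∃ ε, ε = L1 - L0 := ⟨_, rfl⟩
  have hε0 : 0 < ε := by linarith
  obtain ⟨N, hN⟩ : ∃ N : ℕ, N = 8 * p + 8 := ⟨_, rfl⟩
  obtain ⟨r, hr⟩ : ∃ r, r = min (s / 2) (ε / (16 * ((N : ℝ) + 5))) := ⟨_, rfl⟩
  have hNN : (0:ℝ) < 16 * ((N : ℝ) + 5) := by positivity
  have hr0 : 0 < r := by
    rw [hr]
    exact lt_min (by positivity) (by positivity)
  have hrs : r ≤ s / 2 := by rw [hr]; exact min_le_left _ _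
  have hrε : r * (16 * ((N : ℝ) + 5)) ≤ ε := by
    have : r ≤ ε / (16 * ((N : ℝ) + 5)) := by rw [hr]; exact min_le_right _ _
    rwa [le_div_iff₀ hNN] at this
  obtain ⟨a, ha0, b, hb0, har, hba, hfine⟩ := hcell r hr0
  refine ⟨b / 2, by positivity, ?_⟩
  intro v hv
  obtain ⟨x1, hchain⟩ := hv
  -- v is nonempty and its power is good
  have hne : (List.replicate p v).flatten ≠ [x1] := by
    intro h
    have h1 : (List.replicate p v).flatten.length = 1 := by rw [h]; rfl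
    rw [List.length_flatten, List.map_replicate, List.sum_replicate, smul_eq_mul] at h1
    have h2 := Nat.eq_one_of_mul_eq_one_right h1
    omega
  have hgoodp : Good (b / 2) L0 K (List.replicate p v).flatten := by
    rcases Relation.ReflTransGen.cases_head hchain with h | ⟨c, h, _⟩
    · exact absurd h hne
    · exact h.1
  have hgood1 : Good (b / 2) L0 K [x1] := by
    rcases Relation.ReflTransGen.cases_tail hchain with h | ⟨c, _, h⟩
    · exact absurd h.symm hne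
    · exact h.2.1
  have hx1 : x1 ∈ K := hgood1.2.2 x1 List.mem_cons_self
  have hv0 : v ≠ [] := by
    rintro rfl
    rw [List.flatten_replicate_nil] at hgoodp
    exact hgoodp
  have hgoodv := good_of_rep v hv0 p (by omega) hgoodp
  obtain ⟨n, hn, hchainN⟩ := exists_bound hchain
  have hvn : v.length ≤ n := by
    have h1 : (List.replicate p v).flatten.length = p * v.length := by
      rw [List.length_flatten, List.map_replicate, List.sum_replicate, smul_eq_mul]
    have h2 : 1 * v.length ≤ p * v.length := Nat.mul_le_mul_right _ (by omega)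
    omega
  -- the mesh
  obtain ⟨ρ, hρ⟩ : ∃ ρ, ρ = min (b / 4) (ε / (8 * ((n : ℝ) + 1))) := ⟨_, rfl⟩
  have hnn : (0:ℝ) < 8 * ((n : ℝ) + 1) := by positivity
  have hρ0 : 0 < ρ := by
    rw [hρ]
    exact lt_min (by positivity) (by positivity)
  have hρb : ρ ≤ b / 4 := by rw [hρ]; exact min_le_left _ _
  have hρε : ρ * (8 * ((n : ℝ) + 1)) ≤ ε := by
    have : ρ ≤ ε / (8 * ((n : ℝ) + 1)) := by rw [hρ]; exact min_le_right _ _
    rwa [le_div_iff₀ hnn] at this
  obtain ⟨D, Λ, iΛ, iD, G, hF⟩ := hfine ρ hρ0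
  obtain ⟨𝒮, h𝒮⟩ : ∃ 𝒮 : Set (Set M), 𝒮 = {S | ∃ x ∈ K, Metric.ball x a ⊆ S ∧
      S ⊆ Metric.ball x r ∧ IntZero G S} := ⟨_, rfl⟩
  obtain ⟨Fc, hFcd⟩ : ∃ Fc : Set (List D),
      Fc = {ζ | ∃ S ∈ 𝒮, (∀ e ∈ ζ, G.tl e ∈ S) ∧ ∃ y, Walk G y y ζ} := ⟨_, rfl⟩
  have h𝒮zero : ∀ S ∈ 𝒮, IntZero G S := by
    intro S hS
    rw [h𝒮] at hS
    obtain ⟨_, _, _, _, h⟩ := hS
    exact h
  have h𝒮diam : ∀ S ∈ 𝒮, ∀ x ∈ S, ∀ y ∈ S, dist x y ≤ 2 * r := by
    intro S hS x hx y hy
    rw [h𝒮] at hS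
    obtain ⟨c, _, _, hSr, _⟩ := hS
    have h1 := Metric.mem_ball.1 (hSr hx)
    have h2 := Metric.mem_ball.1 (hSr hy)
    have h3 := dist_triangle_right x y c
    linarith
  have hFcin : ∀ x ∈ K, ∀ (y : M) (ζ : List D), Walk G y y ζ →
      (∀ e ∈ ζ, dist x (G.tl e) < a) → ζ ∈ Fc := by
    intro x hx y ζ hζ he
    obtain ⟨S, hS1, hS2, hS3⟩ := hF.int x hx
    rw [hFcd]
    refine ⟨S, ?_, fun e hee => hS1 ?_, y, hζ⟩
    · rw [h𝒮]
      exact ⟨x, hx, hS1, hS2, hS3⟩
    · rw [Metric.mem_ball, dist_comm]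
      exact he e hee
  obtain ⟨ℓ, hℓ⟩ : ∃ ℓ, ℓ = L0 + N * (4 * (2 * r)) + ε / 4 := ⟨_, rfl⟩
  have hn2 : 2 * (n : ℝ) * ρ ≤ ε / 4 := by nlinarith
  obtain ⟨V, W, hV, hW, hstep⟩ := hlift G K K0 r a b ρ hF ha0 hb0 har hba hρ0 (by linarith)
    Fc hFcin n N L0 ℓ (by rw [hℓ]; linarith)
  have hmesh : ∀ d, dist (G.tl d) (G.hd d) ≤ 2 * r := fun d => (hF.mesh d).trans (by linarith)
  have hfm : ∀ f ∈ Fc, ∀ c ∈ f, ∀ c' ∈ f, dist (G.tl c) (G.tl c') ≤ 2 * r := by
    intro f hf c hc c' hc'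
    rw [hFcd] at hf
    obtain ⟨S, hS, hf1, _⟩ := hf
    exact h𝒮diam S hS _ (hf1 c hc) _ (hf1 c' hc')
  have hfcw : ∀ f ∈ Fc, CW G f := by
    intro f hf
    rw [hFcd] at hf
    obtain ⟨_, _, _, hf2⟩ := hf
    exact hf2
  have hwchain : Relation.ReflTransGen (Step G Fc (Rl G (2 * r) ℓ) N)
      (cword W (List.replicate p v).flatten) (cword W [x1]) := by
    have key : ∀ P Q : List M, Relation.ReflTransGen (PStepN n (b / 2) L0 K) P Q →
        Relation.ReflTransGen (Step G Fc (Rl G (2 * r) ℓ) N) (cword W P) (cword W Q) := by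
      intro P Q h
      induction h with
      | refl => exact Relation.ReflTransGen.refl
      | tail _ h ih => exact ih.trans (hstep _ _ h)
    exact key _ _ hchainN
  rw [cword_rep W v hv0 p (by omega), hN] at hwchain
  -- the polygon of the lifted vertices
  have hLpos : 0 < L0 := by
    obtain ⟨x, l, rfl⟩ := List.exists_cons_of_ne_nil hv0
    exact lt_of_le_of_lt (chl_nonneg _) hgoodv.2.1
  obtain ⟨x, l, hvx⟩ := List.exists_cons_of_ne_nil hv0
  have hgv : Good (b / 2) L0 K (x :: l) := hvx ▸ hgoodv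
  have hxK : x ∈ K := hgv.2.2 x List.mem_cons_self
  have hBW : BW G (2 * r) (V x) (V x) (cword W v) (v.map V) := by
    rw [hvx]
    exact bw_of G V W (by linarith) (by linarith) (fun y hy => (hV y hy).2) hW x hxK l x
      hgv.2.2 hgv.1
  have hclose : List.Forall₂ (fun a b => dist a b ≤ ρ) v (v.map V) := by
    have : ∀ v : List M, (∀ y ∈ v, y ∈ K) →
        List.Forall₂ (fun a b => dist a b ≤ ρ) v (v.map V) := by
      intro v
      induction v with
      | nil => intro _; exact List.Forall₂.nil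
      | cons y v ih =>
        intro h
        exact List.Forall₂.cons (hV y (h y List.mem_cons_self)).2
          (ih (fun z hz => h z (List.mem_cons_of_mem _ hz)))
    apply this
    rw [hvx]
    exact hgv.2.2
  have hgoodV := good_close (S' := K0) hρ0.le hgoodv hclose (by
    intro y hy
    obtain ⟨z, hz, rfl⟩ := List.mem_map.1 hy
    apply (hV z _).1
    rw [hvx] at hz
    exact hgv.2.2 z hz)
  have hlen : 2 * ρ * (v.length : ℝ) ≤ ε / 4 := by
    have h1 : (v.length : ℝ) ≤ n := by exact_mod_cast hvn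
    have h2 : 2 * ρ * (v.length : ℝ) ≤ 2 * ρ * n := mul_le_mul_of_nonneg_left h1 (by positivity)
    linarith
  have hNr : 0 ≤ (N : ℝ) * (4 * (2 * r)) := by positivity
  have hchl : chl (v.map V ++ [V x]) < ℓ := by
    rw [hvx] at hgoodV ⊢
    have h1 := hgoodV.2.1
    rw [hvx] at hlen
    have h2 : chl ((x :: l).map V ++ [V x]) < L0 + 2 * ρ * ((x :: l).length : ℝ) := h1
    rw [hℓ]
    linarith
  -- contraction of the lifted polygon
  have hcontr : PContr (2 * r) (ℓ + 20 * (2 * r)) K0 (v.map V) := by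
    by_cases hw : cword W v = []
    · have h1 := const_of_nil G V W (fun x hx y hy hxy => (hW x hx y hy hxy).1) x hxK l x
        hgv.2.2 hgv.1 (by rw [hvx] at hw; exact hw)
      have h2 : v.map V = V x :: List.replicate l.length (V x) := by
        rw [hvx, List.map_cons]
        congr 1
        rw [List.eq_replicate_iff]
        refine ⟨by simp, ?_⟩
        intro y hy
        obtain ⟨z, hz, rfl⟩ := List.mem_map.1 hy
        exact h1 z (List.mem_cons_of_mem _ hz)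
      rw [h2]
      exact ⟨V x, contr_const (by positivity) (by
        rw [hℓ]
        linarith) (hV x hxK).1 _⟩
    · rw [hFcd] at hwchain
      obtain ⟨z', hz', hsteps⟩ := @hdisc M _ ⟨x⟩ D Λ iΛ iD G (2 * r) ℓ (by positivity) hmesh
        𝒮 h𝒮zero h𝒮diam
        (fun w => ∀ c ∈ w, ∀ c' ∈ w, dist (G.tl c) (G.tl c') ≤ 2 * r)
        (fun w w' hw hsub c hc c' hc' => hw c (hsub c hc) c' (hsub c' hc'))
        (fun a w hw c hc c' hc' => by
          have hm := hF.mesh a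
          have hm' : dist (G.tl a) (G.tl (G.inv a)) ≤ ρ := hm
          rcases hw c hc with rfl | rfl <;> rcases hw c' hc' with h | h <;> rw [h]
          · rw [dist_self]; linarith
          · linarith
          · rw [dist_comm]; linarith
          · rw [dist_self]; linarith)
        (fun S hS w hw c hc c' hc' => h𝒮diam S hS _ (hw c hc) _ (hw c' hc'))
        (cword W v) (cword W [x1]) hw
        ⟨0, V x, v.map V, by rw [List.rotate_zero]; exact hBW, by
          rw [Nat.cast_zero, zero_mul, sub_zero]; exact hchl⟩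
        (by
          have h1 := hW x1 hx1 x1 hx1 (by rw [dist_self]; positivity)
          intro c hc c' hc'
          have e : cword W [x1] = W x1 x1 := by
            show W x1 x1 ++ [] = W x1 x1
            rw [List.append_nil]
          rw [e] at hc hc'
          have h2 := (h1.2 c hc).1
          have h3 := (h1.2 c' hc').1
          have h4 := dist_triangle_left (G.tl c) (G.tl c') x1
          linarith)
        hwchain
      rw [← hFcd] at hsteps
      exact hdesc G Fc K0 (2 * r) ℓ (by positivity) hmesh hfcw hfm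
        hF.inK' (cword W v) z' (V x) (hV x hxK).1 (v.map V) (by simpa using hv0) hBW hchl
        hsteps hz'
  -- from v to the lifted polygon
  obtain ⟨c, hc⟩ := hcontr
  have hbound : ℓ + 20 * (2 * r) ≤ L1 := by
    rw [hℓ]
    nlinarith
  have h1 := e_map (β := b / 2) (ρ := ρ) (ℓ := L0) (r := s) (ℓ' := L1) (K := K) (S' := K0 ∪ K)
    (by positivity) hρ0.le (by linarith) V Set.subset_union_right
    (fun x hx => ⟨Or.inl (hV x hx).1, (hV x hx).2⟩) n (by nlinarith) v [] []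
    (by rw [List.append_nil]; exact hgoodv) (by rw [List.append_nil]; exact hvn)
    List.Forall₂.nil
  rw [List.append_nil, List.append_nil] at h1
  refine ⟨c, h1.trans (rtg_mono ?_ hc)⟩
  intro P Q h
  exact ⟨good_mono (by linarith) hbound Set.subset_union_left h.1,
    good_mono (by linarith) hbound Set.subset_union_left h.2.1, h.2.2⟩

end Pool.Agent.TH317.CC
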